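import Pool.Agent.Helper58.LD.Main3

/-!
# Families of conics through a point: statements
-/

set_option autoImplicit false
set_option linter.unusedSectionVars false

open Polynomial Finset DirectSum

namespace Pool.Agent.Helper58.LF.Spec

open Pool.Agent.Helper766_CF Pool.Agent.Helper766_CG Pool.Agent.Helper766_CH
open Pool.Agent.Helper58.CS Pool.Agent.Helper58.OP Pool.Agent.Helper58.SH Pool.Agent.Helper58.BG
open Pool.Agent.Helper58.LC

/-- F1. Bend and break: a conic of nonzero speed is algebraic over its end points. -/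
theorem conic_alg {R : Type} [CommRing R] [IsDomain R] [Algebra ℂ R] {𝒜 : ℕ → Submodule ℂ R}
    [GradedAlgebra 𝒜] {br : R →ₗ[ℂ] R →ₗ[ℂ] R} (C : Core 𝒜 br) (hfree : Free 𝒜) {K : Type}
    [Field K] [Algebra ℂ K] [IsAlgClosed K] (c : Cu 𝒜 K 2) {l : K} (hl : Speed br c l)
    (hl0 : l ≠ 0) (z : R →ₐ[ℂ] ℂ) (hzv : ¬ IsVertex 𝒜 z)
    (hz : ∀ r, (c.f r).coeff 0 = algebraMap ℂ K (z r)) (r : R) (i : ℕ) :
    IsAlgebraic (IntermediateField.adjoin ℂ (Set.range c.p1)) ((c.g r).coeff i) := sorry

/-- F2. A point over which `dim R` independent elements are algebraic is generic. -/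
theorem inj_of_indep {R : Type} [CommRing R] [IsDomain R] [Algebra ℂ R]
    (hfg : Algebra.FiniteType ℂ R) {N : ℕ} (hdim : ringKrullDim R ≤ N) {K : Type} [Field K]
    [Algebra ℂ K] (y : R →ₐ[ℂ] K) (x : Fin N → K) (hx : AlgebraicIndependent ℂ x)
    (halg : ∀ i, IsAlgebraic (IntermediateField.adjoin ℂ (Set.range y)) (x i)) :
    Function.Injective y := sorry

end Pool.Agent.Helper58.LF.Spec
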